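import Pool.Agent.H83.UE.Targets3
import Pool.Agent.H59.UDA.MU

/-!
# Board udb_modules, row MUE: the Green measure, maps with exceptional points
-/

set_option autoImplicit false

namespace Pool.Agent.H54.UDB.MUE

open Set Topology Filter MeasureTheory Polynomial
open Pool.Agent.H83.UE
open Pool.Agent.H59.UDA.MU (it_deg UF UF_le lim_ex cc_bd ru_facts ofReal_smooth ofReal_supp
  dens_ofReal ct ct_smooth ct_supp ct_nonneg ct_le ct_one mass_tendsto)
open scoped ContDiff Laplacian ENNReal CompactlySupported OnePoint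

/-! ### the number of roots -/

theorem roots_card {d : ℕ} (g : RatMap d) (n : ℕ) (z : ℂ) :
    Multiset.card (g.fib n z).roots ≤ d ^ n := by
  refine (Polynomial.card_roots' _).trans ?_
  unfold RatMap.fib
  refine (Polynomial.natDegree_sub_le _ _).trans (max_le (it_deg g n).1 ?_)
  exact (Polynomial.natDegree_C_mul_le _ _).trans (it_deg g n).2

/-- the normalised sum over the fibre of `z` -/
noncomputable def av {d : ℕ} (g : RatMap d) (z : ℂ) (n : ℕ) (u : ℂ → ℝ) : ℝ :=
  ((d : ℝ) ^ n)⁻¹ * ((g.fib n z).roots.map u).sum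

theorem av_bd {d : ℕ} (hd : 2 ≤ d) (g : RatMap d) (z : ℂ) (n : ℕ) {u : ℂ → ℝ} {M : ℝ}
    (hM : ∀ x, |u x| ≤ M) : |av g z n u| ≤ M := by
  have hM0 : 0 ≤ M := (abs_nonneg _).trans (hM 0)
  have hd0 : (0 : ℝ) < (d : ℝ) ^ n := by
    have : (0 : ℝ) < d := by
      have : 0 < d := by omega
      exact_mod_cast this
    positivity
  have h1 : |((g.fib n z).roots.map u).sum| ≤ (Multiset.card (g.fib n z).roots : ℝ) * M := by
    generalize (g.fib n z).roots = s
    induction s using Multiset.induction_on with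
    | empty => simp
    | cons a s ih =>
      rw [Multiset.map_cons, Multiset.sum_cons, Multiset.card_cons]
      refine (abs_add_le _ _).trans ?_
      push_cast
      linarith [hM a]
  have h2 : (Multiset.card (g.fib n z).roots : ℝ) ≤ (d : ℝ) ^ n := by
    exact_mod_cast roots_card g n z
  unfold av
  rw [abs_mul, abs_of_pos (inv_pos.2 hd0), ← div_eq_inv_mul, div_le_iff₀ hd0]
  refine h1.trans ?_
  rw [mul_comm]
  exact mul_le_mul_of_nonneg_left h2 hM0

theorem av_add {d : ℕ} (g : RatMap d) (z : ℂ) (n : ℕ) (u v : ℂ → ℝ) :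
    av g z n (fun x => u x + v x) = av g z n u + av g z n v := by
  unfold av
  rw [Multiset.sum_map_add, mul_add]

theorem av_smul {d : ℕ} (g : RatMap d) (z : ℂ) (n : ℕ) (c : ℝ) (u : ℂ → ℝ) :
    av g z n (fun x => c * u x) = c * av g z n u := by
  unfold av
  rw [Multiset.sum_map_mul_left]
  ring

theorem av_nonneg {d : ℕ} (g : RatMap d) (z : ℂ) (n : ℕ) {u : ℂ → ℝ} (hu : ∀ x, 0 ≤ u x) :
    0 ≤ av g z n u := by
  unfold av
  refine mul_nonneg (inv_nonneg.2 (by positivity)) (Multiset.sum_nonneg fun y hy => ?_)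
  obtain ⟨x, -, rfl⟩ := Multiset.mem_map.1 hy
  exact hu x

/-! ### the limit functional -/

/-- the limit functional on functions -/
noncomputable def LL {d : ℕ} (g : RatMap d) (z : ℂ) (u : ℂ → ℝ) : ℝ :=
  limUnder (UF : Filter ℕ) fun n => av g z n u

theorem LL_tendsto {d : ℕ} (hd : 2 ≤ d) (g : RatMap d) (z : ℂ) {u : ℂ → ℝ} {M : ℝ}
    (hM : ∀ x, |u x| ≤ M) :
    Tendsto (fun n => av g z n u) (UF : Filter ℕ) (𝓝 (LL g z u)) :=
  lim_ex _ fun n => av_bd hd g z n hM

/-- the positive linear functional -/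
noncomputable def Lam {d : ℕ} (hd : 2 ≤ d) (g : RatMap d) (z : ℂ) : C_c(ℂ, ℝ) →ₚ[ℝ] ℝ :=
  PositiveLinearMap.mk₀
    { toFun := fun f => LL g z f
      map_add' := by
        intro f h
        obtain ⟨M, hM⟩ := cc_bd f
        obtain ⟨M', hM'⟩ := cc_bd h
        obtain ⟨M'', hM''⟩ := cc_bd (f + h)
        refine tendsto_nhds_unique (LL_tendsto hd g z hM'') ?_
        refine ((LL_tendsto hd g z hM).add (LL_tendsto hd g z hM')).congr fun n => ?_
        exact (av_add g z n f h).symm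
      map_smul' := by
        intro c f
        obtain ⟨M, hM⟩ := cc_bd f
        obtain ⟨M'', hM''⟩ := cc_bd (c • f)
        refine tendsto_nhds_unique (LL_tendsto hd g z hM'') ?_
        refine ((LL_tendsto hd g z hM).const_mul c).congr fun n => ?_
        exact (av_smul g z n c f).symm }
    (by
      intro f hf
      obtain ⟨M, hM⟩ := cc_bd f
      exact ge_of_tendsto (LL_tendsto hd g z hM) (Eventually.of_forall fun n =>
        av_nonneg g z n fun x => hf x))

theorem Lam_apply {d : ℕ} (hd : 2 ≤ d) (g : RatMap d) (z : ℂ) (f : C_c(ℂ, ℝ)) :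
    Lam hd g z f = LL g z f := rfl

/-! ### a point outside `E` -/

theorem exists_om (E : Finset (OnePoint ℂ)) : ∃ z : ℂ, om E z ≠ 0 := by
  classical
  have hinj : Function.Injective (fun z : ℂ => (z : OnePoint ℂ)) := OnePoint.coe_injective
  have hfin : ((fun z : ℂ => (z : OnePoint ℂ)) ⁻¹' (E : Set (OnePoint ℂ))).Finite :=
    E.finite_toSet.preimage hinj.injOn
  obtain ⟨z, hz⟩ := hfin.exists_notMem
  refine ⟨z, ?_⟩
  unfold om omh
  refine Finset.prod_ne_zero_iff.2 fun e he => ?_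
  have h1 : ((z, 1) : ℂ × ℂ) ≠ 0 := fun h => one_ne_zero (congrArg Prod.snd h)
  have h2 : vec e ≠ 0 ∧ wd (z, 1) (vec e) ≠ 0 := by
    induction e using OnePoint.rec with
    | infty =>
      have hv : vec ∞ = (1, 0) := rfl
      rw [hv]
      refine ⟨fun h => one_ne_zero (congrArg Prod.fst h), ?_⟩
      unfold wd
      simp
    | coe a =>
      have hv : vec (a : OnePoint ℂ) = (a, 1) := rfl
      rw [hv]
      refine ⟨fun h => one_ne_zero (congrArg Prod.snd h), ?_⟩
      unfold wd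
      simp only [mul_one, one_mul]
      refine sub_ne_zero.2 fun h => hz ?_
      change (z : OnePoint ℂ) ∈ (E : Set (OnePoint ℂ))
      rw [h]
      exact he
  unfold cd
  exact div_ne_zero (norm_ne_zero_iff.2 h2.2)
    (mul_ne_zero (norm_ne_zero_iff.2 h1) (norm_ne_zero_iff.2 h2.1))

/-! ### smooth functions -/

/-- convergence for smooth functions -/
theorem av_tendsto (h1 : T_UNE) (h2 : T_RU) {d : ℕ} (hd : 2 ≤ d) (g : RatMap d)
    {E : Finset (OnePoint ℂ)} {κ : ℝ} (hκ : GoodE g E κ) {z : ℂ} (hz : om E z ≠ 0) {G : ℂ → ℝ}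
    (hG : GreenBd g G) {u : ℂ → ℝ} (hu : ContDiff ℝ 2 u) (hc : HasCompactSupport u) :
    Tendsto (fun n => av g z n u) atTop (𝓝 ((2 * Real.pi)⁻¹ * ∫ x, G x * (Δ u) x)) := by
  obtain ⟨h3, h4⟩ := h2 _ (ofReal_smooth hu) (ofReal_supp hc)
  obtain ⟨C, hC0, hC⟩ := h1 d hd g E κ hκ G hG _ h3
  rw [h4] at hC
  have hd1 : (1 : ℝ) < d := by
    have : 1 < d := by omega
    exact_mod_cast this
  have hd0 : (0 : ℝ) < d := by linarith
  have hlim : Tendsto (fun n : ℕ => C * ((κ / d) ^ n + |Real.log (om E z)| / (d : ℝ) ^ n)) atTop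
      (𝓝 0) := by
    have h5 : Tendsto (fun n : ℕ => (κ / d) ^ n) atTop (𝓝 0) :=
      tendsto_pow_atTop_nhds_zero_of_lt_one (div_nonneg (by linarith [hκ.1]) hd0.le)
        ((div_lt_one hd0).2 hκ.2.1)
    have h6 : Tendsto (fun n : ℕ => |Real.log (om E z)| / (d : ℝ) ^ n) atTop (𝓝 0) :=
      tendsto_const_nhds.div_atTop (tendsto_pow_atTop_atTop_of_one_lt hd1)
    simpa using (h5.add h6).const_mul C
  rw [tendsto_iff_norm_sub_tendsto_zero]
  refine squeeze_zero (fun n => norm_nonneg _) (fun n => ?_) hlim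
  refine le_trans (le_of_eq ?_) (hC n z hz)
  have e1 : ((g.fib n z).roots.map fun x => (u x : ℂ)).sum =
      (((g.fib n z).roots.map u).sum : ℂ) := by
    generalize (g.fib n z).roots = s
    induction s using Multiset.induction_on with
    | empty => simp
    | cons a s ih =>
      rw [Multiset.map_cons, Multiset.sum_cons, Multiset.map_cons, Multiset.sum_cons, ih]
      push_cast
      rfl
  have e2 : ∫ w, (G w : ℂ) * dens (fun x => (u x : ℂ)) w =
      (((2 * Real.pi)⁻¹ * ∫ x, G x * (Δ u) x : ℝ) : ℂ) := by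
    simp_rw [dens_ofReal]
    have h6 : ∀ w : ℂ, (G w : ℂ) * (((2 * Real.pi)⁻¹ * (Δ u) w : ℝ) : ℂ) =
        (((2 * Real.pi)⁻¹ * (G w * (Δ u) w) : ℝ) : ℂ) := by
      intro w
      push_cast
      ring
    simp_rw [h6]
    rw [integral_complex_ofReal, integral_const_mul]
  rw [e1, e2]
  have e3 : ((d : ℂ) ^ n)⁻¹ * (((g.fib n z).roots.map u).sum : ℂ) -
      (((2 * Real.pi)⁻¹ * ∫ x, G x * (Δ u) x : ℝ) : ℂ) =
      ((av g z n u - (2 * Real.pi)⁻¹ * ∫ x, G x * (Δ u) x : ℝ) : ℂ) := by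
    unfold av
    push_cast
    ring
  rw [e3, Complex.norm_real]

/-- the Green measure -/
theorem pf_MUE (h1 : T_UNE) (h2 : T_RU) : T_MUE := by
  intro d hd g E κ hκ G hG
  obtain ⟨z, hz⟩ := exists_om E
  set μ : Measure ℂ := RealRMK.rieszMeasure (Lam hd g z) with hμ
  have hint : ∀ u : ℂ → ℝ, ContDiff ℝ 2 u → HasCompactSupport u →
      ∫ x, u x ∂μ = (2 * Real.pi)⁻¹ * ∫ x, G x * (Δ u) x := by
    intro u hu hc
    have h3 := RealRMK.integral_rieszMeasure (Lam hd g z) ⟨⟨u, hu.continuous⟩, hc⟩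
    rw [Lam_apply] at h3
    have h4 : LL g z u = (2 * Real.pi)⁻¹ * ∫ x, G x * (Δ u) x :=
      (((av_tendsto h1 h2 hd g hκ hz hG hu hc).mono_left UF_le)).limUnder_eq
    exact h3.trans h4
  have hui : ∀ k, Integrable (ct k) μ := fun k =>
    (ct_smooth k).continuous.integrable_of_hasCompactSupport (ct_supp k)
  have hlim : Tendsto (fun k => ∫ x, ct k x ∂μ) atTop (𝓝 1) := by
    refine (mass_tendsto h2 g hG).congr fun k => ?_
    exact (hint _ (ct_smooth k) (ct_supp k)).symm
  have hl : ∀ k, ∫⁻ x, ENNReal.ofReal (ct k x) ∂μ = ENNReal.ofReal (∫ x, ct k x ∂μ) := fun k =>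
    (ofReal_integral_eq_lintegral_ofReal (hui k) (Eventually.of_forall (ct_nonneg k))).symm
  have hlim' : Tendsto (fun k => ∫⁻ x, ENNReal.ofReal (ct k x) ∂μ) atTop (𝓝 1) := by
    simp_rw [hl]
    have := (ENNReal.continuous_ofReal.tendsto 1).comp hlim
    rw [ENNReal.ofReal_one] at this
    exact this
  refine ⟨μ, ⟨le_antisymm ?_ ?_⟩, hint⟩
  · have h3 : ∫⁻ x, (liminf (fun k => ENNReal.ofReal (ct k x)) atTop) ∂μ ≤
        liminf (fun k => ∫⁻ x, ENNReal.ofReal (ct k x) ∂μ) atTop :=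
      lintegral_liminf_le fun k => (ct_smooth k).continuous.measurable.ennreal_ofReal
    rw [hlim'.liminf_eq] at h3
    have h4 : ∀ x : ℂ, liminf (fun k => ENNReal.ofReal (ct k x)) atTop = 1 := by
      intro x
      refine Tendsto.liminf_eq ?_
      refine tendsto_const_nhds.congr' ?_
      filter_upwards [eventually_ge_atTop ⌈‖x‖⌉₊] with k hk
      have h5 : ‖x‖ ≤ (k : ℝ) + 1 := by
        have h6 := Nat.le_ceil ‖x‖
        have h7 : ((⌈‖x‖⌉₊ : ℕ) : ℝ) ≤ k := by exact_mod_cast hk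
        linarith
      rw [ct_one k h5, ENNReal.ofReal_one]
    simp_rw [h4] at h3
    rwa [lintegral_one] at h3
  · refine le_of_tendsto hlim' (Eventually.of_forall fun k => ?_)
    calc ∫⁻ x, ENNReal.ofReal (ct k x) ∂μ ≤ ∫⁻ _x, 1 ∂μ := by
          refine lintegral_mono fun x => ?_
          rw [← ENNReal.ofReal_one]
          exact ENNReal.ofReal_le_ofReal (ct_le k x)
      _ = μ univ := lintegral_one

end Pool.Agent.H54.UDB.MUE
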